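import Pool.Agent.Helper80_RS2.Stmts
import Pool.Agent.Helper33_RS.Ske

/-!
# The skeleton (SKE), squad RS2
-/

open SimpleGraph

namespace Pool.Agent.RS81.H33

open Pool.Agent.RS80 Pool.Agent.RS80.H33

variable {V K A T : Type}

theorem base [Finite V] (B : SimpleGraph V) (n : ℕ) (hB : TwoConn B)
    (c : B.Coloring Bool) (z : V) :
    ∃ (K : Type) (_ : Finite K) (D : SimpleGraph K) (P : Set K),
      B.Free D ∧ (∀ p ∈ P, ∀ q ∈ P, ¬ D.Adj p q) ∧ P.ncard = n ∧
      (∀ p ∈ P, ∀ q ∈ P, p ≠ q → B ⊑ D ⊔ edge p q) ∧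
      ∀ S ⊆ P, S.ncard = {v | c v = c z}.ncard → B ⊑ cone D S := by
  classical
  have hV3 := hB.1
  obtain ⟨N, hN⟩ := ramsey (Nat.card V) n
  -- the edge-maximal graph
  have hbot : B ≠ ⊥ := by
    intro h
    obtain ⟨u, hu⟩ := hB.exists_adj z
    rw [h] at hu
    exact hu
  obtain ⟨D1, -, hD1⟩ := Set.Finite.exists_le_maximal
    (s := {D : SimpleGraph (Fin N) | B.Free D}) (Set.toFinite _) (a := ⊥) (free_bot hbot)
  have hD1f : B.Free D1 := hD1.1
  have hD1m : ∀ a b, a ≠ b → ¬ D1.Adj a b → B ⊑ D1 ⊔ edge a b := by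
    intro a b hab hnadj
    by_contra hcon
    have h1 := hD1.2 (y := D1 ⊔ edge a b) hcon le_sup_left
    apply hnadj
    have h2 : (D1 ⊔ edge a b).Adj a b := by
      rw [sup_adj, edge_adj]
      exact Or.inr ⟨Or.inl ⟨rfl, rfl⟩, hab⟩
    exact h1 h2
  -- the independent set
  obtain ⟨P1, hP1c, hP1⟩ : ∃ C : Finset (Fin N), C.card = n ∧
      ∀ x ∈ C, ∀ y ∈ C, ¬ D1.Adj x y := by
    rcases hN (Fin N) D1 Finset.univ (by simp) with ⟨C, _, hCc, hC⟩ | ⟨C, _, hCc, hC⟩
    · exfalso
      apply hD1f
      obtain ⟨e⟩ : Nonempty (V ≃ C) := by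
        apply equiv_of_card
        rw [← hCc]
        simp
      refine ⟨⟨⟨fun v => (e v).1, fun {u v} huv => ?_⟩, fun u v huv => ?_⟩⟩
      · apply hC _ (e u).2 _ (e v).2
        intro h
        exact huv.ne (e.injective (Subtype.ext h))
      · exact e.injective (Subtype.ext huv)
    · exact ⟨C, hCc, hC⟩
  -- the new vertices
  set s := {v | c v = c z}.ncard with hs
  let 𝒮 : Type := {S : Set (Fin N) // S ⊆ P1 ∧ S.ncard = s}
  have h𝒮 : Finite 𝒮 := inferInstance
  have := Fintype.ofFinite 𝒮
  let Q : ℕ → Prop := fun k => ∃ σ : Fin k → 𝒮, B.Free (ext D1 (fun t => (σ t).1))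
  have hQ0 : Q 0 := by
    refine ⟨Fin.elim0, ?_⟩
    rintro ⟨f⟩
    have h : ∀ v, ∃ a, f v = Sum.inl a := by
      intro v
      rcases hv : f v with a | t
      · exact ⟨a, rfl⟩
      · exact t.elim0
    choose g hg using h
    apply hD1f
    refine ⟨⟨⟨g, fun {u v} huv => ?_⟩, fun u v huv => ?_⟩⟩
    · have h1 := f.toHom.map_rel huv
      change (ext D1 _).Adj (f u) (f v) at h1
      rw [hg, hg] at h1
      exact h1
    · apply f.injective
      change f u = f v
      change g u = g v at huv
      rw [hg, hg, huv]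
  have hQb : ∀ k, Q k → k ≤ Fintype.card 𝒮 * Nat.card V := by
    rintro k ⟨σ, hσ⟩
    by_contra hcon
    push Not at hcon
    obtain ⟨S, hS⟩ := Fintype.exists_lt_card_fiber_of_mul_lt_card (f := σ)
      (n := Nat.card V) (by simpa using hcon)
    apply hσ
    obtain ⟨e1⟩ : Nonempty ({v | c v = c z} ≃ S.1) := by
      apply equiv_of_card
      rw [Nat.card_coe_set_eq, Nat.card_coe_set_eq, S.2.2]
    obtain ⟨e2⟩ : Nonempty (V ↪ (Finset.univ.filter (fun x => σ x = S) : Finset (Fin k))) := by
      apply embed_of_card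
      rw [Nat.card_eq_fintype_card (α := (Finset.univ.filter (fun x => σ x = S) :
        Finset (Fin k))), Fintype.card_coe]
      exact hS.le
    have he2 : ∀ v, σ (e2 v).1 = S := fun v => (Finset.mem_filter.1 (e2 v).2).2
    let g : V → Fin N ⊕ Fin k := fun v =>
      if h : c v = c z then Sum.inl (e1 ⟨v, h⟩).1 else Sum.inr (e2 v).1
    refine ⟨⟨⟨g, fun {u v} huv => ?_⟩, fun u v huv => ?_⟩⟩
    · have hne : c u ≠ c v := c.valid huv
      by_cases h1 : c u = c z
      · have h2 : c v ≠ c z := fun h => hne (h1.trans h.symm)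
        have e3 : g u = Sum.inl (e1 ⟨u, h1⟩).1 := dif_pos h1
        have e4 : g v = Sum.inr (e2 v).1 := dif_neg h2
        rw [e3, e4]
        change (e1 ⟨u, h1⟩).1 ∈ (σ (e2 v).1).1
        rw [he2]
        exact (e1 ⟨u, h1⟩).2
      · have h2 : c v = c z := by
          revert hne h1
          cases c u <;> cases c v <;> cases c z <;> simp
        have e3 : g u = Sum.inr (e2 u).1 := dif_neg h1
        have e4 : g v = Sum.inl (e1 ⟨v, h2⟩).1 := dif_pos h2
        rw [e3, e4]
        change (e1 ⟨v, h2⟩).1 ∈ (σ (e2 u).1).1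
        rw [he2]
        exact (e1 ⟨v, h2⟩).2
    · change g u = g v at huv
      by_cases h1 : c u = c z
      · by_cases h2 : c v = c z
        · have e3 : g u = Sum.inl (e1 ⟨u, h1⟩).1 := dif_pos h1
          have e4 : g v = Sum.inl (e1 ⟨v, h2⟩).1 := dif_pos h2
          rw [e3, e4] at huv
          have h3 := e1.injective (Subtype.ext (Sum.inl_injective huv))
          exact congrArg Subtype.val h3
        · have e3 : g u = Sum.inl (e1 ⟨u, h1⟩).1 := dif_pos h1
          have e4 : g v = Sum.inr (e2 v).1 := dif_neg h2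
          rw [e3, e4] at huv
          cases huv
      · by_cases h2 : c v = c z
        · have e3 : g u = Sum.inr (e2 u).1 := dif_neg h1
          have e4 : g v = Sum.inl (e1 ⟨v, h2⟩).1 := dif_pos h2
          rw [e3, e4] at huv
          cases huv
        · have e3 : g u = Sum.inr (e2 u).1 := dif_neg h1
          have e4 : g v = Sum.inr (e2 v).1 := dif_neg h2
          rw [e3, e4] at huv
          exact e2.injective (Subtype.ext (Sum.inr_injective huv))
  obtain ⟨k, hk, hk'⟩ : ∃ k, Q k ∧ ¬ Q (k + 1) := by
    by_contra hcon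
    push Not at hcon
    have hall : ∀ k, Q k := fun k => Nat.rec hQ0 (fun k hk => hcon k hk) k
    have := hQb _ (hall (Fintype.card 𝒮 * Nat.card V + 1))
    omega
  obtain ⟨σ, hσ⟩ := hk
  refine ⟨Fin N ⊕ Fin k, inferInstance, ext D1 (fun t => (σ t).1), Sum.inl '' (P1 : Set (Fin N)),
    hσ, ?_, ?_, ?_, ?_⟩
  · rintro _ ⟨a, ha, rfl⟩ _ ⟨b, hb, rfl⟩
    exact hP1 a ha b hb
  · rw [Set.ncard_image_of_injective _ Sum.inl_injective, Set.ncard_coe_finset, hP1c]
  · rintro _ ⟨a, ha, rfl⟩ _ ⟨b, hb, rfl⟩ hab
    have hab' : a ≠ b := fun h => hab (by rw [h])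
    obtain ⟨f⟩ := hD1m a b hab' (hP1 a ha b hb)
    refine ⟨⟨⟨fun v => Sum.inl (f v), fun {u v} huv => ?_⟩, fun u v huv => ?_⟩⟩
    · have h1 := f.toHom.map_rel huv
      change (D1 ⊔ edge a b).Adj (f u) (f v) at h1
      rw [sup_adj, edge_adj] at h1
      rw [sup_adj, edge_adj]
      rcases h1 with h1 | ⟨h1, h2⟩
      · exact Or.inl h1
      · right
        refine ⟨?_, fun h => h2 (Sum.inl_injective h)⟩
        rcases h1 with ⟨h3, h4⟩ | ⟨h3, h4⟩
        · exact Or.inl ⟨by rw [h3], by rw [h4]⟩
        · exact Or.inr ⟨by rw [h3], by rw [h4]⟩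
    · exact f.injective (Sum.inl_injective huv)
  · intro S hSP hSs
    set S0 : Set (Fin N) := Sum.inl ⁻¹' S with hS0
    have hS0P : S0 ⊆ P1 := by
      intro a ha
      obtain ⟨b, hb, hab⟩ := hSP ha
      rw [← Sum.inl_injective hab]
      exact hb
    have hSS0 : S = Sum.inl '' S0 := by
      ext x
      constructor
      · intro hx
        obtain ⟨b, hb, rfl⟩ := hSP hx
        exact ⟨b, hx, rfl⟩
      · rintro ⟨a, ha, rfl⟩
        exact ha
    have hS0s : S0.ncard = s := by
      rw [← hSs, hSS0, Set.ncard_image_of_injective _ Sum.inl_injective]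
    have h1 : ¬ B.Free (ext D1 (fun t => ((Fin.cons ⟨S0, hS0P, hS0s⟩ σ : Fin (k + 1) → 𝒮) t).1)) :=
      fun h => hk' ⟨_, h⟩
    rw [not_not] at h1
    refine h1.trans ?_
    let e : Fin N ⊕ Fin (k + 1) → Option (Fin N ⊕ Fin k) := fun x => match x with
      | .inl a => some (.inl a)
      | .inr t => Fin.cases none (fun t => some (.inr t)) t
    refine ⟨⟨⟨e, fun {x y} hxy => ?_⟩, fun x y hxy => ?_⟩⟩
    · rcases x with a | t <;> rcases y with b | t'
      · exact hxy
      · change a ∈ _ at hxy
        induction t' using Fin.cases with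
        | zero =>
          change Sum.inl a ∈ S
          exact hxy
        | succ t' => exact hxy
      · change b ∈ _ at hxy
        induction t using Fin.cases with
        | zero =>
          change Sum.inl b ∈ S
          exact hxy
        | succ t => exact hxy
      · exact hxy.elim
    · change e x = e y at hxy
      rcases x with a | t <;> rcases y with b | t'
      · have h2 : some (Sum.inl a : Fin N ⊕ Fin k) = some (Sum.inl b) := hxy
        have h3 := Sum.inl_injective (Option.some_injective _ h2)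
        rw [h3]
      · exfalso
        induction t' using Fin.cases with
        | zero =>
          have h2 : some (Sum.inl a : Fin N ⊕ Fin k) = none := hxy
          cases h2
        | succ t' =>
          have h2 : some (Sum.inl a : Fin N ⊕ Fin k) = some (Sum.inr t') := hxy
          cases h2
      · exfalso
        induction t using Fin.cases with
        | zero =>
          have h2 : none = some (Sum.inl b : Fin N ⊕ Fin k) := hxy
          cases h2
        | succ t =>
          have h2 : some (Sum.inr t : Fin N ⊕ Fin k) = some (Sum.inl b) := hxy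
          cases h2
      · induction t using Fin.cases with
        | zero =>
          induction t' using Fin.cases with
          | zero => rfl
          | succ t' =>
            have h2 : none = some (Sum.inr t' : Fin N ⊕ Fin k) := hxy
            cases h2
        | succ t =>
          induction t' using Fin.cases with
          | zero =>
            have h2 : some (Sum.inr t : Fin N ⊕ Fin k) = none := hxy
            cases h2
          | succ t' =>
            have h2 : some (Sum.inr t : Fin N ⊕ Fin k) = some (Sum.inr t') := hxy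
            have h3 := Sum.inr_injective (Option.some_injective _ h2)
            rw [h3]


/-! ### The paths -/

/-- The graph `G` with paths `(t, 0), ..., (t, L)`, `t ∈ T`, from the vertex `r t` of `G` to the
common end `none`. -/
def spider (G : SimpleGraph A) (r : T → A) (L : ℕ) :
    SimpleGraph (A ⊕ Option (T × Fin (L + 1))) where
  Adj x y := match x, y with
    | .inl a, .inl b => G.Adj a b
    | .inl a, .inr (some p) => r p.1 = a ∧ (p.2 : ℕ) = 0
    | .inr (some p), .inl a => r p.1 = a ∧ (p.2 : ℕ) = 0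
    | .inr (some p), .inr (some p') =>
        p.1 = p'.1 ∧ ((p.2 : ℕ) + 1 = p'.2 ∨ (p'.2 : ℕ) + 1 = p.2)
    | .inr (some p), .inr none => (p.2 : ℕ) = L
    | .inr none, .inr (some p) => (p.2 : ℕ) = L
    | .inr none, .inr none => False
    | .inl _, .inr none => False
    | .inr none, .inl _ => False
  symm := ⟨by
    rintro (a | _ | p) (b | _ | p') h
    · exact G.symm.symm _ _ h
    · exact h
    · exact h
    · exact h
    · exact h
    · exact h
    · exact h
    · exact h
    · exact ⟨h.1.symm, h.2.symm⟩⟩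
  loopless := ⟨by
    rintro (a | _ | p) h
    · exact G.loopless.irrefl a h
    · exact h
    · have h2 := h.2
      omega⟩

/-- The points of the path `t`. -/
def pt (r : T → A) (L : ℕ) (t : T) (i : ℕ) : A ⊕ Option (T × Fin (L + 1)) :=
  if i = 0 then Sum.inl (r t) else if h : i - 1 < L + 1 then Sum.inr (some (t, ⟨i - 1, h⟩))
    else Sum.inr none

theorem pt_zero (r : T → A) {L : ℕ} (t : T) : pt r L t 0 = Sum.inl (r t) := rfl

theorem pt_of_lt (r : T → A) {L : ℕ} (t : T) {i : ℕ} (h : i < L + 1) :
    pt r L t (i + 1) = Sum.inr (some (t, ⟨i, h⟩)) := by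
  have h' : i + 1 - 1 < L + 1 := h
  rw [pt, if_neg (Nat.succ_ne_zero i), dif_pos h']
  rfl

theorem pt_of_not (r : T → A) {L : ℕ} (t : T) {i : ℕ} (h : ¬ i < L + 1) :
    pt r L t (i + 1) = Sum.inr none := by
  have h' : ¬ i + 1 - 1 < L + 1 := h
  rw [pt, if_neg (Nat.succ_ne_zero i), dif_neg h']

theorem adj_pt {G : SimpleGraph A} {r : T → A} {L : ℕ} {t : T} {i : ℕ} (h1 : 1 ≤ i)
    (h2 : i ≤ L + 1) {y : A ⊕ Option (T × Fin (L + 1))}
    (h : (spider G r L).Adj (pt r L t i) y) :
    y = pt r L t (i - 1) ∨ y = pt r L t (i + 1) := by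
  obtain ⟨i, rfl⟩ : ∃ j, i = j + 1 := ⟨i - 1, by omega⟩
  rw [pt_of_lt r t (by omega : i < L + 1)] at h
  rw [Nat.add_sub_cancel]
  rcases y with a | _ | ⟨t', j⟩
  · left
    have h3 : r t = a := h.1
    have h4 : i = 0 := h.2
    rw [h4, pt_zero, h3]
  · right
    have h3 : i = L := h
    rw [pt_of_not r t (by omega)]
  · have h3 : t = t' := h.1
    have h7 : i + 1 = (j : ℕ) ∨ (j : ℕ) + 1 = i := h.2
    rcases h7 with h7 | h7
    · right
      rw [pt_of_lt r t (by omega : i + 1 < L + 1), ← h3]
      congr 3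
      exact Fin.ext h7.symm
    · left
      obtain ⟨i, rfl⟩ : ∃ k, i = k + 1 := ⟨i - 1, by omega⟩
      rw [pt_of_lt r t (by omega : i < L + 1), ← h3]
      congr 3
      apply Fin.ext
      change (j : ℕ) = i
      omega

theorem free_spider [Finite V] {B : SimpleGraph V} (hB : TwoConn B) {G : SimpleGraph A}
    (r : T → A) (hG : B.Free G) : B.Free (spider G r (Nat.card V)) := by
  rintro ⟨f⟩
  set L := Nat.card V with hL
  have hL3 : 3 ≤ L := hB.1
  have hadj : ∀ u v, B.Adj u v → (spider G r L).Adj (f u) (f v) := fun u v h => f.toHom.map_rel h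
  have hinj : ∀ u v, f u = f v → u = v := fun u v h => f.injective h
  -- the neighbours of an inner point of the range belong to the range
  have hstep : ∀ x i, 1 ≤ i → i ≤ L + 1 → (∃ v, f v = pt r L x i) →
      (∃ v, f v = pt r L x (i - 1)) ∧ ∃ v, f v = pt r L x (i + 1) := by
    rintro x i h1 h2 ⟨v, hv⟩
    obtain ⟨u1, hu1⟩ := hB.exists_adj v
    obtain ⟨u2, hne, hu2⟩ := hB.exists_adj_ne v u1
    have e1 := hadj _ _ hu1
    have e2 := hadj _ _ hu2
    rw [hv] at e1 e2
    rcases adj_pt h1 h2 e1 with h3 | h3 <;> rcases adj_pt h1 h2 e2 with h4 | h4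
    · exact absurd (hinj _ _ (h4.trans h3.symm)) hne
    · exact ⟨⟨u1, h3⟩, ⟨u2, h4⟩⟩
    · exact ⟨⟨u2, h4⟩, ⟨u1, h3⟩⟩
    · exact absurd (hinj _ _ (h4.trans h3.symm)) hne
  have hno : ∀ x i, 1 ≤ i → i ≤ L + 1 → ¬ ∃ v, f v = pt r L x i := by
    intro x i h1 h2 hi
    have hup : ∀ k, i + k ≤ L + 1 → ∃ v, f v = pt r L x (i + k) := by
      intro k
      induction k with
      | zero => intro _; exact hi
      | succ k ih =>
        intro hk
        exact (hstep x (i + k) (by omega) (by omega) (ih (by omega))).2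
    have hdown : ∀ k, k ≤ i → ∃ v, f v = pt r L x (i - k) := by
      intro k
      induction k with
      | zero => intro _; exact hi
      | succ k ih =>
        intro hk
        have := (hstep x (i - k) (by omega) (by omega) (ih (by omega))).1
        have e : i - k - 1 = i - (k + 1) := by omega
        rwa [e] at this
    have hall : ∀ k : Fin (L + 1), ∃ v, f v = pt r L x ((k : ℕ) + 1) := by
      intro k
      have hk := k.2
      by_cases hik : i ≤ (k : ℕ) + 1
      · have := hup ((k : ℕ) + 1 - i) (by omega)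
        have e : i + ((k : ℕ) + 1 - i) = (k : ℕ) + 1 := by omega
        rwa [e] at this
      · have := hdown (i - ((k : ℕ) + 1)) (by omega)
        have e : i - (i - ((k : ℕ) + 1)) = (k : ℕ) + 1 := by omega
        rwa [e] at this
    choose g hg using hall
    have hginj : Function.Injective g := by
      intro a b hab
      have e1 := hg a
      have e2 := hg b
      rw [hab, e2, pt_of_lt r x a.2, pt_of_lt r x b.2] at e1
      have h3 := Option.some_injective _ (Sum.inr_injective e1)
      have h4 := congrArg Prod.snd h3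
      exact h4.symm
    have := Nat.card_le_card_of_injective g hginj
    rw [Nat.card_eq_fintype_card, Fintype.card_fin] at this
    omega
  have hform : ∀ v, ∃ x, f v = Sum.inl x := by
    intro v
    have hsome : ∀ v (t : T) (i : Fin (L + 1)), f v ≠ Sum.inr (some (t, i)) := by
      intro v t i hv
      apply hno t ((i : ℕ) + 1) (by omega) (by have := i.2; omega)
      refine ⟨v, ?_⟩
      rw [hv, pt_of_lt r t i.2]
    rcases hv : f v with x | _ | ⟨t, i⟩
    · exact ⟨x, rfl⟩
    · exfalso
      obtain ⟨u, hu⟩ := hB.exists_adj v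
      have h1 := hadj _ _ hu
      rw [hv] at h1
      rcases hfu : f u with y | _ | ⟨y, j⟩
      · rw [hfu] at h1
        exact h1
      · rw [hfu] at h1
        exact h1
      · exact hsome u y j hfu
    · exact absurd hv (hsome v t i)
  choose g hg using hform
  apply hG
  refine ⟨⟨⟨g, fun {u v} huv => ?_⟩, fun u v huv => ?_⟩⟩
  · have h1 := hadj _ _ huv
    rw [hg, hg] at h1
    exact h1
  · change g u = g v at huv
    apply hinj
    rw [hg, hg, huv]

theorem free_cone_empty [Finite V] {B : SimpleGraph V} (hB : TwoConn B) {D : SimpleGraph K}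
    (hD : B.Free D) : B.Free (cone D ∅) := by
  rintro ⟨f⟩
  have hsome : ∀ v, ∃ a, f v = some a := by
    intro v
    rcases hv : f v with _ | a
    · exfalso
      obtain ⟨u, hu⟩ := hB.exists_adj v
      have h1 : (cone D ∅).Adj (f v) (f u) := f.toHom.map_rel hu
      rw [hv] at h1
      rcases hfu : f u with _ | a
      · rw [hfu] at h1
        exact h1
      · rw [hfu] at h1
        exact h1
    · exact ⟨a, rfl⟩
  choose g hg using hsome
  apply hD
  refine ⟨⟨⟨g, fun {u v} huv => ?_⟩, fun u v huv => ?_⟩⟩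
  · have h1 : (cone D ∅).Adj (f u) (f v) := f.toHom.map_rel huv
    rw [hg, hg] at h1
    exact h1
  · apply f.injective
    change f u = f v
    change g u = g v at huv
    rw [hg, hg, huv]

theorem ske : SkeStmt := by
  classical
  intro V _ B ℓ m hB hℓ c z q n hq
  obtain ⟨K0, hfin, D0, P0, hfree, hind, hcard, hedge, hcone⟩ := base B n hB c z
  have hf := free_cone_empty hB hfree
  have hV3 : 3 ≤ Nat.card V := hB.1
  set L := Nat.card V with hL
  let kk : Option K0 → ℕ := fun x => x.elim q (fun _ => m + 1)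
  have hkn : kk none = q := rfl
  have hks : ∀ a, kk (some a) = m + 1 := fun a => rfl
  let T : Type := Σ x : Option K0, Fin (kk x)
  let r : T → Option K0 := Sigma.fst
  let D : SimpleGraph (Option K0 ⊕ Option (T × Fin (L + 1))) := spider (cone D0 ∅) r L
  have hDf : B.Free D := free_spider hB r hf
  let i0 : K0 → Option K0 ⊕ Option (T × Fin (L + 1)) := fun a => Sum.inl (some a)
  have hi0 : Function.Injective i0 := fun a b h => Option.some_injective _ (Sum.inl_injective h)
  let u : Option K0 ⊕ Option (T × Fin (L + 1)) := Sum.inl none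
  -- the private neighbours
  let pf : (a : Option K0) → Fin (kk a) → Option K0 ⊕ Option (T × Fin (L + 1)) :=
    fun a i => Sum.inr (some (⟨a, i⟩, 0))
  have hpf : ∀ a i b j, pf a i = pf b j → (⟨a, i⟩ : T) = ⟨b, j⟩ := by
    intro a i b j h
    exact congrArg Prod.fst (Option.some_injective _ (Sum.inr_injective h))
  have hpfadj : ∀ a i, D.Adj (Sum.inl a) (pf a i) := fun a i => ⟨rfl, rfl⟩
  let priv : Option K0 → Finset (Option K0 ⊕ Option (T × Fin (L + 1))) := fun a =>
    Finset.univ.map ⟨pf a, fun i j h => by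
      have := hpf a i a j h
      simpa using this⟩
  have hpriv_mem : ∀ a p, p ∈ priv a ↔ ∃ i, pf a i = p := by
    intro a p
    rw [Finset.mem_map]
    exact ⟨fun ⟨i, _, h⟩ => ⟨i, h⟩, fun ⟨i, h⟩ => ⟨i, Finset.mem_univ _, h⟩⟩
  have hpriv_card : ∀ a, (priv a).card = kk a := by
    intro a
    rw [Finset.card_map, Finset.card_univ, Fintype.card_fin]
  have hpriv_disj : ∀ a b, a ≠ b → Disjoint (priv a) (priv b) := by
    intro a b hab
    rw [Finset.disjoint_left]
    intro p hp hp'
    rw [hpriv_mem] at hp hp'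
    obtain ⟨i, rfl⟩ := hp
    obtain ⟨j, hj⟩ := hp'
    exact hab (congrArg Sigma.fst (hpf b j a i hj)).symm
  have key : ∀ R : SimpleGraph (Option K0 ⊕ Option (T × Fin (L + 1))), D ≤ R →
      ∀ φ : V → Option K0, Function.Injective φ →
      (∀ a b, B.Adj a b → R.Adj (Sum.inl (φ a)) (Sum.inl (φ b))) →
      PA B (fun v => kk (φ v)) R (fun v => Sum.inl (φ v)) := by
    intro R hR φ hφ hadj
    refine ⟨fun a b h => hφ (Sum.inl_injective h), hadj, fun v => priv (φ v),
      fun v => (hpriv_card _).ge, ?_, ?_⟩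
    · intro v a ha
      rw [hpriv_mem] at ha
      obtain ⟨i, rfl⟩ := ha
      exact ⟨hR (hpfadj _ i), fun w h => by cases h⟩
    · intro a b hab
      exact hpriv_disj _ _ (fun h => hab (hφ h))
  have huP : u ∉ i0 '' P0 := by
    rintro ⟨a, _, h⟩
    cases Sum.inl_injective h
  have hinsert : ∀ x, x ∈ insert u (i0 '' P0) → ∃ a, x = Sum.inl a ∧ (a = none ∨
      ∃ b ∈ P0, a = some b) := by
    rintro x (rfl | ⟨b, hb, rfl⟩)
    · exact ⟨none, rfl, Or.inl rfl⟩
    · exact ⟨some b, rfl, Or.inr ⟨b, hb, rfl⟩⟩
  -- reduction of the cones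
  have hred : ∀ S : Set (Option K0 ⊕ Option (T × Fin (L + 1))), S ⊆ i0 '' P0 →
      ∀ S' ⊆ S, S'.ncard = {v | c v = c z}.ncard →
      ∃ g : V → Option K0, Function.Injective g ∧
        (∀ a b, B.Adj a b → (D ⊔ starG u S).Adj (Sum.inl (g a)) (Sum.inl (g b))) ∧
        ∀ a b, B.Adj a b → ∀ a' b', g a = some a' → g b = some b' → D0.Adj a' b' := by
    intro S hSP S' hS' hS's
    set S0 : Set K0 := i0 ⁻¹' S' with hS0
    have hS0P : S0 ⊆ P0 := by
      intro a ha
      obtain ⟨b, hb, hab⟩ := hSP (hS' ha)
      rw [← hi0 hab]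
      exact hb
    have hSS0 : S' = i0 '' S0 := by
      ext x
      constructor
      · intro hx
        obtain ⟨b, hb, rfl⟩ := hSP (hS' hx)
        exact ⟨b, hx, rfl⟩
      · rintro ⟨a, ha, rfl⟩
        exact ha
    have hS0s : S0.ncard = {v | c v = c z}.ncard := by
      rw [← hS's, hSS0, Set.ncard_image_of_injective _ hi0]
    obtain ⟨g⟩ := hcone S0 hS0P hS0s
    refine ⟨g, g.injective, ?_, ?_⟩
    · intro a b hab
      have h1 : (cone D0 S0).Adj (g a) (g b) := g.toHom.map_rel hab
      rw [sup_adj]
      rcases hga : g a with _ | a' <;> rcases hgb : g b with _ | b' <;> rw [hga, hgb] at h1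
      · exact h1.elim
      · right
        have h2 : i0 b' ∈ S := hS' h1
        rw [starG, fromRel_adj]
        exact ⟨fun h => Option.some_ne_none _ (Sum.inl_injective h).symm, Or.inl ⟨rfl, h2⟩⟩
      · right
        have h2 : i0 a' ∈ S := hS' h1
        rw [starG, fromRel_adj]
        exact ⟨fun h => Option.some_ne_none _ (Sum.inl_injective h), Or.inr ⟨rfl, h2⟩⟩
      · left
        exact h1
    · intro a b hab a' b' hga hgb
      have h1 : (cone D0 S0).Adj (g a) (g b) := g.toHom.map_rel hab
      rw [hga, hgb] at h1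
      exact h1
  refine ⟨Option K0 ⊕ Option (T × Fin (L + 1)), inferInstance, D, i0 '' P0, u, hDf, huP,
    by rw [Set.ncard_image_of_injective _ hi0, hcard], ?_, ?_, ?_, ?_, ?_, ?_, ?_⟩
  · -- independence
    intro p hp p' hp' h
    obtain ⟨a, rfl, ha⟩ := hinsert p hp
    obtain ⟨b, rfl, hb⟩ := hinsert p' hp'
    have h1 : (cone D0 ∅).Adj a b := h
    rcases ha with rfl | ⟨a', ha', rfl⟩
    · rcases hb with rfl | ⟨b', hb', rfl⟩
      · exact h1
      · exact h1
    · rcases hb with rfl | ⟨b', hb', rfl⟩
      · exact h1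
      · exact hind a' ha' b' hb' h1
  · refine ⟨Sum.inr none, fun h => ?_⟩
    obtain ⟨a, ha, _⟩ := hinsert _ h
    cases ha
  · -- connectedness
    have hnr : ∀ x, (Sum.inr x : Option K0 ⊕ Option (T × Fin (L + 1))) ∉
        insert u (i0 '' P0) := by
      intro x h
      obtain ⟨a, ha, _⟩ := hinsert _ h
      cases ha
    set X := insert u (i0 '' P0) with hX
    have hsym : ∀ a b, (a ∉ X ∧ b ∉ X ∧ D.Adj a b) → (b ∉ X ∧ a ∉ X ∧ D.Adj b a) :=
      fun a b h => ⟨h.2.1, h.1, h.2.2.symm⟩
    have hto : ∀ k (t : T) (i : Fin (L + 1)), (i : ℕ) + k = L →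
        Relation.ReflTransGen (fun a b => a ∉ X ∧ b ∉ X ∧ D.Adj a b)
          (Sum.inr (some (t, i))) (Sum.inr none) ∧
        Relation.ReflTransGen (fun a b => a ∉ X ∧ b ∉ X ∧ D.Adj a b)
          (Sum.inr none) (Sum.inr (some (t, i))) := by
      intro k
      induction k with
      | zero =>
        intro t i hi
        have h1 : (Sum.inr (some (t, i)) : Option K0 ⊕ Option (T × Fin (L + 1))) ∉ X ∧
            (Sum.inr none : Option K0 ⊕ Option (T × Fin (L + 1))) ∉ X ∧
            D.Adj (Sum.inr (some (t, i))) (Sum.inr none) := ⟨hnr _, hnr _, by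
          change (i : ℕ) = L
          omega⟩
        exact ⟨Relation.ReflTransGen.single h1, Relation.ReflTransGen.single (hsym _ _ h1)⟩
      | succ k ih =>
        intro t i hi
        have hi1 : (i : ℕ) + 1 < L + 1 := by omega
        obtain ⟨h2, h3⟩ := ih t ⟨i + 1, hi1⟩ (by change (i : ℕ) + 1 + k = L; omega)
        have h1 : (Sum.inr (some (t, i)) : Option K0 ⊕ Option (T × Fin (L + 1))) ∉ X ∧
            (Sum.inr (some (t, ⟨i + 1, hi1⟩)) : Option K0 ⊕ Option (T × Fin (L + 1))) ∉ X ∧
            D.Adj (Sum.inr (some (t, i))) (Sum.inr (some (t, ⟨i + 1, hi1⟩))) :=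
          ⟨hnr _, hnr _, rfl, Or.inl rfl⟩
        exact ⟨Relation.ReflTransGen.head h1 h2, Relation.ReflTransGen.tail h3 (hsym _ _ h1)⟩
    have hto' : ∀ t, t ∉ X →
        Relation.ReflTransGen (fun a b => a ∉ X ∧ b ∉ X ∧ D.Adj a b) t (Sum.inr none) ∧
        Relation.ReflTransGen (fun a b => a ∉ X ∧ b ∉ X ∧ D.Adj a b) (Sum.inr none) t := by
      rintro (a | _ | ⟨t, i⟩) ht
      · rcases a with _ | a
        · exact absurd (Set.mem_insert u _) ht
        · let t0 : T := ⟨some a, (0 : Fin (m + 1))⟩
          obtain ⟨h2, h3⟩ := hto L t0 0 (by change 0 + L = L; omega)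
          have h1 : (Sum.inl (some a) : Option K0 ⊕ Option (T × Fin (L + 1))) ∉ X ∧
              (Sum.inr (some (t0, 0)) : Option K0 ⊕ Option (T × Fin (L + 1))) ∉ X ∧
              D.Adj (Sum.inl (some a)) (Sum.inr (some (t0, 0))) := ⟨ht, hnr _, rfl, rfl⟩
          exact ⟨Relation.ReflTransGen.head h1 h2, Relation.ReflTransGen.tail h3 (hsym _ _ h1)⟩
      · exact ⟨Relation.ReflTransGen.refl, Relation.ReflTransGen.refl⟩
      · exact hto (L - i) t i (by have := i.2; omega)
    intro t ht t' ht'
    exact (hto' t ht).1.trans (hto' t' ht').2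
  · -- the degree of `u`
    have h1 : D.neighborSet u = (priv none : Set _) := by
      ext x
      rw [mem_neighborSet, Finset.mem_coe, hpriv_mem]
      constructor
      · intro h
        rcases x with a | _ | ⟨t, i⟩
        · exfalso
          have h2 : (cone D0 ∅).Adj none a := h
          rcases a with _ | a
          · exact h2
          · exact h2
        · exact (show False from h).elim
        · have h2 : t.1 = none := h.1
          have h3 : (i : ℕ) = 0 := h.2
          obtain ⟨t1, t2⟩ := t
          subst h2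
          refine ⟨t2, ?_⟩
          have h4 : i = 0 := Fin.ext h3
          rw [h4]
      · rintro ⟨i, rfl⟩
        exact hpfadj none i
    rw [h1, Set.ncard_coe_finset, hpriv_card, hkn]
  · -- completing pairs
    rintro _ ⟨x, hx, rfl⟩ _ ⟨y, hy, rfl⟩ hxy
    have hxy' : x ≠ y := fun h => hxy (by rw [h])
    obtain ⟨g⟩ := hedge x hx y hy hxy'
    rw [pendL_isContained_iff]
    refine ⟨_, (key _ le_sup_left (fun v => some (g v))
      (fun a b h => g.injective (Option.some_injective _ h)) ?_).mono_ell fun v => ?_⟩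
    · intro a b hab
      have h1 : (D0 ⊔ edge x y).Adj (g a) (g b) := g.toHom.map_rel hab
      rw [sup_adj, edge_adj] at h1 ⊢
      rcases h1 with h1 | ⟨h1, h2⟩
      · left
        exact h1
      · right
        refine ⟨?_, fun h => h2 (hi0 h)⟩
        rcases h1 with ⟨h3, h4⟩ | ⟨h3, h4⟩
        · exact Or.inl ⟨by rw [h3], by rw [h4]⟩
        · exact Or.inr ⟨by rw [h3], by rw [h4]⟩
    · have := hℓ v
      rw [hks]
      omega
  · -- new vertices
    intro S hSP hSs
    obtain ⟨g, hg1, hg2, hg3⟩ := hred S hSP S subset_rfl hSs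
    have hk := key _ le_sup_left g hg1 hg2
    by_cases hex : ∃ z', 0 < ℓ z' ∧ g z' = none
    · right
      obtain ⟨z', hz', hgz'⟩ := hex
      rw [near_iff]
      refine ⟨z', hz', _, hk.mono_ell fun w => ?_, by rw [hgz']⟩
      by_cases hw : w = z'
      · rw [hw, low_self, hgz', hkn]
        have := hℓ z'
        omega
      · rw [low_ne _ _ hw]
        rcases hgw : g w with _ | a
        · exact absurd (hg1 (hgw.trans hgz'.symm)) hw
        · have := hℓ w
          rw [hks]
          omega
    · left
      rw [pendL_isContained_iff]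
      refine ⟨_, hk.mono_ell fun w => ?_⟩
      rcases hgw : g w with _ | a
      · have h0 : ¬ 0 < ℓ w := fun h => hex ⟨w, h, hgw⟩
        omega
      · have := hℓ w
        rw [hks]
        omega
  · -- the last case
    intro hmq S hSP hSV hSs
    obtain ⟨S', hS', hS's⟩ := Set.exists_subset_card_eq hSs
    obtain ⟨g, hg1, hg2, hg3⟩ := hred S hSP S' hS' hS's
    by_cases hex : ∃ z', g z' = none
    · obtain ⟨z', hgz'⟩ := hex
      have := Fintype.ofFinite V
      -- a further neighbour
      obtain ⟨s0, hs0S, hs0⟩ : ∃ x, i0 x ∈ S ∧ ∀ w, g w ≠ some x := by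
        by_contra hcon
        push Not at hcon
        -- all of `S` belongs to the core
        have h1 : S ⊆ (fun w => (Sum.inl (g w) : Option K0 ⊕ Option (T × Fin (L + 1)))) ''
            {z'}ᶜ := by
          intro x hx
          obtain ⟨b, hb, rfl⟩ := hSP hx
          obtain ⟨w, hw⟩ := hcon b hx
          refine ⟨w, fun h => ?_, congrArg Sum.inl hw⟩
          rw [Set.mem_singleton_iff.1 h, hgz'] at hw
          cases hw
        have h2 : ((fun w => (Sum.inl (g w) : Option K0 ⊕ Option (T × Fin (L + 1)))) ''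
            {z'}ᶜ).ncard ≤ S.ncard := by
          rw [Set.ncard_image_of_injective _ (fun a b h => hg1 (Sum.inl_injective h)),
            Set.ncard_compl, Set.ncard_singleton]
          omega
        have h3 := Set.eq_of_subset_of_ncard_le h1 h2 (Set.toFinite _)
        -- two adjacent vertices of the core different from `z'`
        obtain ⟨a, ha⟩ := hB.exists_adj z'
        obtain ⟨b, hb1, hb2⟩ := hB.exists_adj_ne a z'
        have hin : ∀ w, w ≠ z' → ∃ x ∈ P0, g w = some x := by
          intro w hw
          have h4 : (Sum.inl (g w) : Option K0 ⊕ Option (T × Fin (L + 1))) ∈ S := by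
            rw [h3]
            exact ⟨w, hw, rfl⟩
          obtain ⟨x, hx, hx'⟩ := hSP h4
          exact ⟨x, hx, (Sum.inl_injective hx').symm⟩
        obtain ⟨x, hx, hgx⟩ := hin a ha.ne'
        obtain ⟨y, hy, hgy⟩ := hin b hb1
        exact hind x hx y hy (hg3 a b hb2 x y hgx hgy)
      obtain ⟨-, -, A0, hA1, hA2, hA3⟩ := key _ (le_sup_left (b := starG u S)) g hg1 hg2
      rw [pendL_isContained_iff]
      refine ⟨fun v => Sum.inl (g v), fun a b h => hg1 (Sum.inl_injective h), hg2,
        fun v => if v = z' then insert (i0 s0) (priv (g v)) else priv (g v), ?_, ?_, ?_⟩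
      · intro v
        by_cases hv : v = z'
        · simp only [if_pos hv]
          rw [Finset.card_insert_of_notMem, hpriv_card, hv, hgz', hkn]
          · have := hℓ z'
            omega
          · rw [hpriv_mem]
            rintro ⟨i, h⟩
            cases h
        · simp only [if_neg hv]
          rw [hpriv_card]
          rcases hgv : g v with _ | a
          · exact absurd (hg1 (hgv.trans hgz'.symm)) hv
          · have := hℓ v
            rw [hks]
            omega
      · have hp : ∀ v, ∀ a ∈ priv (g v), (D ⊔ starG u S).Adj (Sum.inl (g v)) a ∧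
            ∀ w, a ≠ Sum.inl (g w) := by
          intro v a ha
          rw [hpriv_mem] at ha
          obtain ⟨i, rfl⟩ := ha
          refine ⟨Or.inl (hpfadj _ i), fun w h => by cases h⟩
        intro v a ha
        by_cases hv : v = z'
        · simp only [if_pos hv] at ha
          rcases Finset.mem_insert.1 ha with rfl | ha
          · refine ⟨?_, fun w h => hs0 w (Sum.inl_injective h).symm⟩
            change (D ⊔ starG u S).Adj (Sum.inl (g v)) (i0 s0)
            rw [hv, hgz', sup_adj]
            right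
            rw [starG, fromRel_adj]
            exact ⟨fun h => Option.some_ne_none _ (Sum.inl_injective h).symm, Or.inl ⟨rfl, hs0S⟩⟩
          · exact hp v a ha
        · simp only [if_neg hv] at ha
          exact hp v a ha
      · have hd : ∀ a b, a ≠ b → Disjoint (priv (g a)) (priv (g b)) := fun a b hab =>
          hpriv_disj _ _ (fun h => hab (hg1 h))
        have hn : ∀ v, i0 s0 ∉ priv (g v) := by
          intro v h
          rw [hpriv_mem] at h
          obtain ⟨i, h⟩ := h
          cases h
        intro a b hab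
        by_cases ha : a = z'
        · have hb : b ≠ z' := fun h => hab (ha.trans h.symm)
          simp only [if_pos ha, if_neg hb]
          rw [Finset.disjoint_insert_left]
          exact ⟨hn b, hd a b hab⟩
        · by_cases hb : b = z'
          · simp only [if_neg ha, if_pos hb]
            rw [Finset.disjoint_insert_right]
            exact ⟨hn a, hd a b hab⟩
          · simp only [if_neg ha, if_neg hb]
            exact hd a b hab
    · rw [pendL_isContained_iff]
      refine ⟨_, (key _ le_sup_left g hg1 hg2).mono_ell fun w => ?_⟩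
      rcases hgw : g w with _ | a
      · exact absurd ⟨w, hgw⟩ hex
      · have := hℓ w
        rw [hks]
        omega

end Pool.Agent.RS81.H33
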